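import Mathlib

namespace Pool.Agent.Results.MP_6f4f36_nt.Val

open Polynomial Finset

open Classical in
noncomputable def T (n : ℕ) : Finset (Nat.Partition n) :=
  univ.filter fun l => ∀ i ∈ l.parts, ∃ e, i = 3 ^ e

noncomputable def h (n : ℕ) (l : Nat.Partition n) : ℤ[X] :=
  ∏ i ∈ Icc 1 n, (1 + X ^ i) ^ (n / i - l.parts.count i)

noncomputable def G (n : ℕ) : ℤ[X] := (T n).gcd (h n)

noncomputable def num (n : ℕ) : ℤ[X] := (∑ l ∈ T n, h n l) /ₘ G n

noncomputable def s (n : ℕ) : ℤ := (num n).eval (-1)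

noncomputable def c (j : ℕ) : ℤ[X] := cyclotomic (2 * 3 ^ j) ℤ

noncomputable def sp (m : Multiset ℕ) : ℤ[X] := (m.map fun i => 1 + X ^ i).prod

noncomputable def L (N m : ℕ) : ℤ[X] := ∏ j ∈ range N, c j ^ (m / 3 ^ j)

lemma c_zero : c 0 = 1 + X := by simp [c, add_comm]

lemma c_prod (i : ℕ) : (1 + X ^ 3 ^ i : ℤ[X]) = ∏ j ∈ range (i + 1), c j := by
  induction i with
  | zero => simp [c_zero]
  | succ i ih =>
    have h1 := congrArg (expand ℤ 3) ih
    rw [map_prod, prod_range_succ', c,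
      cyclotomic_expand_eq_cyclotomic_mul Nat.prime_three (by norm_num)] at h1
    rw [prod_range_succ', prod_range_succ', mul_assoc]
    simp only [map_add, map_one, map_pow, expand_X, ← pow_mul, ← pow_succ'] at h1
    rw [h1]
    refine congrArg₂ _ (prod_congr rfl fun j _ => ?_) rfl
    rw [c, cyclotomic_expand_eq_cyclotomic Nat.prime_three ⟨2 * 3 ^ j, by ring⟩, c]
    congr 1
    ring

lemma ne0 (i : ℕ) : (1 + X ^ i : ℤ[X]) ≠ 0 := fun h => by simpa using congrArg (eval 1) h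

lemma c_eval (j : ℕ) : (c (j + 1)).eval (-1) = 3 := by
  have h1 := c_prod (j + 1)
  rw [prod_range_succ, ← c_prod] at h1
  have h2 : c (j + 1) = 1 - X ^ 3 ^ j + (X ^ 3 ^ j) ^ 2 :=
    mul_left_cancel₀ (ne0 (3 ^ j)) (by rw [← h1, pow_succ, pow_mul]; ring)
  have h3 : (-1 : ℤ) ^ 3 ^ j = -1 := Odd.neg_one_pow (Odd.pow (by decide))
  simp [h2, h3]

lemma L_dvd (N m : ℕ) (P : ℤ[X]) (hP : ∀ j, c j ^ (m / 3 ^ j) ∣ P) : L N m ∣ P := by
  refine Finset.prod_dvd_of_isRelPrime (fun i _ j _ hij => ?_) fun j _ => hP j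
  have hi : ∀ j, Irreducible (c j) := fun j => cyclotomic.irreducible (by positivity)
  refine IsRelPrime.pow ((hi i).isRelPrime_iff_not_dvd.2 fun hd => hij ?_)
  have h1 := eq_of_monic_of_associated (cyclotomic.monic _ _) (cyclotomic.monic _ _)
    ((hi i).associated_of_dvd (hi j) hd)
  have h2 := cyclotomic_injective h1
  simpa using h2

lemma sp_dvd (N : ℕ) (m : Multiset ℕ) (hm : ∀ i ∈ m, ∃ e < N, i = 3 ^ e) : sp m ∣ L N m.sum := by
  induction m using Multiset.induction_on with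
  | empty => simp [sp]
  | cons a m ih =>
    obtain ⟨e, he, rfl⟩ := hm a (by simp)
    have h1 := ih fun i hi => hm i (by simp [hi])
    rw [sp, Multiset.map_cons, Multiset.prod_cons, Multiset.sum_cons]
    refine (mul_dvd_mul_left _ h1).trans ?_
    have h2 : ∏ j ∈ range (e + 1), c j = ∏ j ∈ range N, c j ^ (if j ≤ e then 1 else 0) := by
      rw [← prod_subset (range_mono (show e + 1 ≤ N from he))]
      · exact prod_congr rfl fun j hj => by rw [if_pos (by simpa [Nat.lt_succ_iff] using hj), pow_one]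
      · intro j _ hj
        rw [if_neg (by simpa [Nat.lt_succ_iff] using hj), pow_zero]
    rw [c_prod, h2, L, L, ← prod_mul_distrib]
    refine prod_dvd_prod_of_dvd _ _ fun j _ => ?_
    rw [← pow_add]
    refine pow_dvd_pow _ ?_
    refine le_trans ?_ Nat.div_add_div_le_add_div
    split_ifs with hj
    · have := (Nat.one_le_div_iff (by positivity)).2 (Nat.pow_le_pow_right (n := 3) (by norm_num) hj)
      omega
    · exact Nat.add_le_add_right (Nat.zero_le _) _

lemma sp_fac (m : Multiset ℕ) (hm : ∀ i ∈ m, ∃ e, i = 3 ^ e) :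
    ∃ u : ℤ[X], sp m = c 0 ^ m.card * u ∧ u.eval (-1) ≠ 0 := by
  induction m using Multiset.induction_on with
  | empty => exact ⟨1, by simp [sp]⟩
  | cons a m ih =>
    obtain ⟨e, rfl⟩ := hm a (by simp)
    obtain ⟨u, h1, h2⟩ := ih fun i hi => hm i (by simp [hi])
    refine ⟨(∏ j ∈ range e, c (j + 1)) * u, ?_, by simp [eval_prod, c_eval, h2]⟩
    rw [sp, Multiset.map_cons, Multiset.prod_cons, ← sp, h1, c_prod, prod_range_succ',
      Multiset.card_cons]
    ring

lemma h_sp (n : ℕ) (l : Nat.Partition n) :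
    h n l * sp l.parts = ∏ i ∈ Icc 1 n, (1 + X ^ i) ^ (n / i) := by
  have h1 : l.parts.toFinset ⊆ Icc 1 n := fun i hi => by
    rw [Multiset.mem_toFinset] at hi
    exact mem_Icc.2 ⟨l.parts_pos hi, l.le_of_mem_parts hi⟩
  rw [sp, prod_multiset_map_count, prod_subset h1 (fun i _ hi => by
    rw [Multiset.count_eq_zero.2 (by simpa using hi), pow_zero]), h, ← prod_mul_distrib]
  refine prod_congr rfl fun i hi => ?_
  rw [← pow_add, Nat.sub_add_cancel]
  rw [Nat.le_div_iff_mul_le (mem_Icc.1 hi).1]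
  have h2 := Multiset.le_count_iff_replicate_le.1 (le_refl (l.parts.count i))
  obtain ⟨t, ht⟩ := Multiset.le_iff_exists_add.1 h2
  have h3 := l.parts_sum
  rw [ht] at h3
  simp at h3
  omega

def lam (n j : ℕ) : Nat.Partition n :=
  ⟨Multiset.replicate (n / 3 ^ j) (3 ^ j) + Multiset.replicate (n % 3 ^ j) 1, fun hi => by
    rcases Multiset.mem_add.1 hi with h | h <;> rw [Multiset.eq_of_mem_replicate h] <;> positivity,
    by simp [Nat.div_add_mod']⟩

lemma lam_mem (n j : ℕ) : lam n j ∈ T n := by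
  simp only [T, mem_filter, mem_univ, true_and]
  intro i hi
  rcases Multiset.mem_add.1 hi with h | h <;> rw [Multiset.eq_of_mem_replicate h]
  exacts [⟨j, rfl⟩, ⟨0, rfl⟩]

lemma c_lam (n j : ℕ) : c j ^ (n / 3 ^ j) ∣ sp (lam n j).parts := by
  simp only [sp, lam, Multiset.map_add, Multiset.prod_add, Multiset.map_replicate,
    Multiset.prod_replicate]
  refine Dvd.dvd.mul_right (pow_dvd_pow_of_dvd ?_ _) _
  rw [c_prod, prod_range_succ]
  exact Dvd.intro_left _ rfl

lemma sp_ne (m : Multiset ℕ) : sp m ≠ 0 :=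
  Multiset.prod_ne_zero fun hm => by
    obtain ⟨i, -, hi⟩ := Multiset.mem_map.1 hm
    exact ne0 i hi

lemma main (n : ℕ) : (G n).Monic ∧ s n = 3 ^ padicValNat 3 n.factorial := by
  set H : ℤ[X] := ∏ i ∈ Icc 1 n, (1 + X ^ i) ^ (n / i) with hH
  have hHm : H.Monic := monic_prod_of_monic _ _ fun i hi => by
    rw [add_comm]
    exact (monic_X_pow_add_C (1 : ℤ) (by have := (mem_Icc.1 hi).1; omega)).pow _
  have hLm : (L (n + 1) n).Monic := monic_prod_of_monic _ _ fun i _ => (cyclotomic.monic _ _).pow _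
  obtain ⟨Q, hQ⟩ := L_dvd (n + 1) n H fun j => (c_lam n j).trans (Dvd.intro_left _ (h_sp n _))
  have hQm : Q.Monic := hLm.of_mul_monic_left (hQ ▸ hHm)
  have hT : ∀ l ∈ T n, ∀ i ∈ l.parts, ∃ e, i = 3 ^ e := fun l hl => by
    simpa [T] using hl
  have h1 : ∀ l : Nat.Partition n, ∃ g, l ∈ T n → L (n + 1) n = sp l.parts * g ∧ h n l = Q * g := by
    intro l
    by_cases hl : l ∈ T n
    · obtain ⟨g, hg⟩ := sp_dvd (n + 1) l.parts fun i hi => by
        obtain ⟨e, rfl⟩ := hT l hl i hi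
        have := l.le_of_mem_parts hi
        have := Nat.lt_pow_self (n := e) (show 1 < 3 by norm_num)
        exact ⟨e, by omega, rfl⟩
      rw [l.parts_sum] at hg
      refine ⟨g, fun _ => ⟨hg, mul_right_cancel₀ (sp_ne l.parts) ?_⟩⟩
      rw [h_sp, ← hH, hQ, hg]; ring
    · exact ⟨0, fun h => absurd h hl⟩
  choose g hg using h1
  have h2 : G n = Q := by
    refine dvd_antisymm_of_normalize_eq normalize_gcd hQm.normalize_eq_self ?_
      (dvd_gcd fun l hl => Dvd.intro _ (hg l hl).2.symm)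
    have h3 : ∀ j, G n ∣ h n (lam n j) := fun j => gcd_dvd (lam_mem n j)
    obtain ⟨P, hP⟩ := (h3 0).trans (Dvd.intro _ (h_sp n _))
    rw [← hH] at hP
    obtain ⟨t, ht⟩ := L_dvd (n + 1) n P fun j => by
      obtain ⟨a, ha⟩ := h3 j
      refine (c_lam n j).trans ⟨a, mul_left_cancel₀ (left_ne_zero_of_mul (hP ▸ hHm.ne_zero)) ?_⟩
      rw [← hP, hH, ← h_sp n (lam n j), ha]; ring
    exact ⟨t, mul_left_cancel₀ hLm.ne_zero (by rw [← hQ, hP, ht]; ring)⟩
  refine ⟨h2 ▸ hQm, ?_⟩
  have h4 : L (n + 1) n = c 0 ^ n * ∏ j ∈ range n, c (j + 1) ^ (n / 3 ^ (j + 1)) := by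
    rw [L, prod_range_succ', mul_comm]; simp
  have hc : c 0 ≠ 0 := cyclotomic_ne_zero _ _
  have h0 : (lam n 0).parts = Multiset.replicate n 1 := by simp [lam, Nat.mod_one]
  rw [s, num, h2, sum_congr rfl fun l hl => (hg l hl).2, ← mul_sum, mul_divByMonic_cancel_left _ hQm,
    eval_finsetSum, sum_eq_single_of_mem _ (lam_mem n 0)]
  · have h5 := (hg _ (lam_mem n 0)).1
    rw [h4, h0, sp] at h5
    simp only [Multiset.map_replicate, Multiset.prod_replicate, pow_one, ← c_zero] at h5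
    rw [← mul_left_cancel₀ (pow_ne_zero _ hc) h5, padicValNat_factorial (b := n + 1)
      (Nat.lt_succ_of_le (Nat.log_le_self _ _)), sum_Ico_eq_sum_range]
    simp [eval_prod, c_eval, prod_pow_eq_pow_sum, add_comm]
  · intro l hl hne
    obtain ⟨u, h5, h6⟩ := sp_fac l.parts (hT l hl)
    have h7 : l.parts.card < n := by
      by_contra hc
      refine hne (Nat.Partition.ext ?_)
      have h8 : ∀ i ∈ l.parts, i = 1 := by
        by_contra hc'
        push Not at hc'
        obtain ⟨i, hi, hi'⟩ := hc'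
        have h9 := Multiset.sum_lt_sum (s := l.parts) (f := fun _ => 1) (g := id)
          (fun i hi => l.parts_pos hi) ⟨i, hi, by have := l.parts_pos hi; simp only [id]; omega⟩
        simp [l.parts_sum] at h9
        omega
      have h9 := Multiset.eq_replicate_card.2 h8
      have h10 := l.parts_sum
      rw [h9] at h10
      rw [h0, h9, show l.parts.card = n by simpa using h10]
    obtain ⟨d, hd⟩ := Nat.exists_eq_add_of_lt h7
    have h8 := (hg l hl).1
    rw [h4, h5, mul_assoc, show c 0 ^ n = c 0 ^ l.parts.card * c 0 ^ (d + 1) by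
      rw [← pow_add, ← add_assoc, ← hd], mul_assoc] at h8
    have h9 := congrArg (eval (-1)) (mul_left_cancel₀ (pow_ne_zero _ hc) h8)
    simpa [c_zero, h6] using h9

theorem result : (∀ n, (G n).Monic) ∧ s 1 = 1 ∧ s 2 = 1 ∧ ∀ n, 1 ≤ n →
    s (3 * n) = 3 ^ padicValNat 3 (3 * n).factorial ∧
    s (3 * n + 1) = 3 ^ padicValNat 3 (3 * n).factorial ∧
    s (3 * n + 2) = 3 ^ padicValNat 3 (3 * n).factorial := by
  refine ⟨fun n => (main n).1, by simp [(main 1).2], ?_, fun n _ => ⟨(main _).2, ?_, ?_⟩⟩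
  · rw [(main 2).2, padicValNat.eq_zero_of_not_dvd (by decide), pow_zero]
  · rw [(main _).2, padicValNat_factorial_mul_add _ (by norm_num)]
  · rw [(main _).2, padicValNat_factorial_mul_add _ (by norm_num)]

end Pool.Agent.Results.MP_6f4f36_nt.Val
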